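import Pool.Agent.H80.JE.Targets

set_option autoImplicit false

namespace Pool.Agent.H46.JE

open Finset Filter Topology Pool.Agent.H80.JD Pool.Agent.H80.JE

lemma ff_nonneg' (B A : ℝ) (hA : 0 ≤ A) (s : ℤ) : 0 ≤ ff B A s := by
  unfold ff
  split_ifs
  · positivity
  · linarith

lemma gg_nonneg (B A a : ℝ) (hA : 0 ≤ A) : 0 ≤ gg B A a := by
  unfold gg
  split_ifs
  · positivity
  · linarith

lemma pot2_fst {m : ℕ} (B A : ℝ) (hA : 0 ≤ A) (s : St m) (h : pot2 B A s ≤ A) (j : Fin m) :
    0 < s.1 j := by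
  by_contra hc
  have h1 : gg B A (s.1 j) = A + 1 := by unfold gg; rw [if_neg hc]
  have h2 : gg B A (s.1 j) ≤ ∑ j, gg B A (s.1 j) :=
    Finset.single_le_sum (f := fun j => gg B A (s.1 j)) (fun i _ => gg_nonneg B A _ hA) (mem_univ j)
  have h3 : 0 ≤ pot B A s.2 := Finset.sum_nonneg (fun i _ => ff_nonneg' B A hA _)
  unfold pot2 at h
  linarith

lemma pot2_snd {m : ℕ} (B A : ℝ) (hA : 0 ≤ A) (s : St m) (h : pot2 B A s ≤ A) (j : Fin m) :
    |((s.2 j : ℤ) : ℝ)| < B := by
  by_contra hc
  have h1 : ff B A (s.2 j) = A + 1 := by unfold ff; rw [if_neg hc]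
  have h2 : ff B A (s.2 j) ≤ pot B A s.2 :=
    Finset.single_le_sum (f := fun j => ff B A (s.2 j)) (fun i _ => ff_nonneg' B A hA _)
      (mem_univ j)
  have h3 : 0 ≤ ∑ j, gg B A (s.1 j) := Finset.sum_nonneg (fun i _ => gg_nonneg B A _ hA)
  unfold pot2 at h
  linarith

theorem pth3 : T_PTH3 := by
  classical
  intro m K B A γ τ n
  induction n with
  | zero =>
    intro s c hA hbad
    have h1 : pot2 B A s ≤ A := by simpa [badSeq] using hbad
    refine ⟨fun i => i.elim0, fun j => ?_, fun t ht j => ?_⟩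
    · simpa using pot2_fst B A hA s h1 j
    · simpa using pot2_snd B A hA s h1 j
  | succ n ih =>
    intro s c hA hbad
    simp only [badSeq, not_or, not_lt] at hbad
    obtain ⟨h1, h2⟩ := hbad
    obtain ⟨x, hx1, hx2⟩ := ih (stp2 B γ τ s (c 0)) (Fin.tail c) hA h2
    set b := bit B τ s (c 0).1 (c 0).2 with hb
    refine ⟨Fin.cons b x, fun j => ?_, fun t ht j => ?_⟩
    · have h3 := hx1 j
      have h4 : ∑ i ∈ univ.filter (fun i : Fin (n + 1) => Core τ (c i).1 (c i).2),
          sg ((Fin.cons b x : Fin (n + 1) → Bool) i) * sg ((c i).1 j) =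
          (if Core τ (c 0).1 (c 0).2 then sg b * sg ((c 0).1 j) else 0) +
          ∑ i ∈ univ.filter (fun i : Fin n => Core τ (Fin.tail c i).1 (Fin.tail c i).2),
            sg (x i) * sg ((Fin.tail c i).1 j) := by
        rw [Finset.sum_filter, Finset.sum_filter, Fin.sum_univ_succ]
        simp [Fin.tail]
      rw [h4]
      by_cases hc : Core τ (c 0).1 (c 0).2
      · rw [if_pos hc]
        simp only [stp2, if_pos hc] at h3
        rw [← hb] at h3
        push_cast at h3 ⊢
        linarith
      · rw [if_neg hc]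
        simp only [stp2, if_neg hc] at h3
        push_cast at h3 ⊢
        linarith
    · rcases t with _ | t
      · simpa using pot2_snd B A hA s h1 j
      · have h3 := hx2 t (by omega) j
        have h4 : ∑ i ∈ univ.filter (fun i : Fin (n + 1) =>
            ¬ Core τ (c i).1 (c i).2 ∧ (i : ℕ) < t + 1),
            sg ((Fin.cons b x : Fin (n + 1) → Bool) i) * sg ((c i).1 j) =
            (if Core τ (c 0).1 (c 0).2 then 0 else sg b * sg ((c 0).1 j)) +
            ∑ i ∈ univ.filter (fun i : Fin n =>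
              ¬ Core τ (Fin.tail c i).1 (Fin.tail c i).2 ∧ (i : ℕ) < t),
              sg (x i) * sg ((Fin.tail c i).1 j) := by
          rw [Finset.sum_filter, Finset.sum_filter, Fin.sum_univ_succ]
          by_cases hc : Core τ (c 0).1 (c 0).2
          · simp [Fin.tail, hc]
          · simp [Fin.tail, hc]
        rw [h4]
        by_cases hc : Core τ (c 0).1 (c 0).2
        · rw [if_pos hc]
          simp only [stp2, if_pos hc] at h3
          rw [zero_add]
          exact h3
        · rw [if_neg hc]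
          simp only [stp2, if_neg hc] at h3
          rw [← hb] at h3
          rw [← add_assoc]
          exact h3

end Pool.Agent.H46.JE
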